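import Pool.Agent.Helper21.OR.SimplePlus
import Pool.Agent.Helper21.TR.Bad3
import Pool.Agent.Helper21.TR.EigDefs
import Pool.Agent.Helper88.OR.GA
import Pool.Agent.Helper93.SR.Rat

/-!
MP_b8862a_ag, orthogonal (type III) theorem, blocks OE and OG (Lie algebra part): the number of
eigenvalues of Frobenius on the abelian part.
-/

set_option linter.unusedSectionVars false

open Module MTPairs

attribute [local instance 100] LieRing.ofAssociativeRing

namespace OR

open MTP MTP.MF TR UN UN.GA Pool.Agent.Helper54.MT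

lemma choose_strict {m : ℕ} (hm : 3 ≤ m) :
    2 * (2 * m - 2).choose (m - 1) < (2 * m).choose m := by
  obtain ⟨n, rfl⟩ : ∃ n, m = n + 2 := ⟨m - 2, by omega⟩
  have e1 : (2 * (n + 2)).choose (n + 2) =
      (2 * n + 3).choose (n + 1) + (2 * n + 3).choose (n + 2) := by
    rw [show 2 * (n + 2) = (2 * n + 3) + 1 by ring]
    exact Nat.choose_succ_succ _ _
  have e2 : (2 * n + 3).choose (n + 2) = (2 * n + 3).choose (n + 1) := by
    rw [← Nat.choose_symm_of_eq_add (show 2 * n + 3 = (n + 1) + (n + 2) by ring)]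
  have e3 : (2 * n + 3).choose (n + 1) = (2 * n + 2).choose n + (2 * n + 2).choose (n + 1) :=
    Nat.choose_succ_succ _ _
  have e4 : 0 < (2 * n + 2).choose n := Nat.choose_pos (by omega)
  rw [e1, e2, e3, show 2 * (n + 2) - 2 = 2 * n + 2 by omega, show n + 2 - 1 = n + 1 by omega]
  omega

section
variable {K : Type*} [Field K] {V : Type*} [AddCommGroup V] [Module K V]
  [FiniteDimensional K V] [CharZero K] {ω : LinearMap.BilinForm K V}
  {N h : Module.End K V} {σ : K}

/-- The multiplicities vanish exactly when the rank is half of the dimension. -/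
lemma eq_half_iff (H : BC ω N h σ) :
    {q | ml N h q ≠ 0} = ∅ ↔ 2 * rk N = finrank K V := by
  obtain ⟨P, hP, h4, h5⟩ := H.count
  rw [Set.eq_empty_iff_forall_notMem]
  constructor
  · intro h0
    have h1 : ∀ q : K, ml N h q = 0 := fun q => by
      by_contra hq
      exact h0 q hq
    have h6 : ∑ q ∈ P, ml N h (q : K) = 0 := Finset.sum_eq_zero (fun q _ => h1 (q : K))
    rw [h4, h1 0, h6, add_zero, mul_zero, add_zero]
  · intro hr q hq
    have h6 : ml N h 0 = 0 ∧ ∑ q ∈ P, ml N h (q : K) = 0 := by omega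
    apply hq
    by_cases hq0 : q = 0
    · rw [hq0]; exact h6.1
    by_cases h7 : ∀ p ∈ P, q ≠ (p : K) ∧ q ≠ -(p : K)
    · exact h5 q hq0 h7
    · push Not at h7
      obtain ⟨p, hp, h8⟩ := h7
      have h9 := Finset.sum_eq_zero_iff.mp h6.2 p hp
      by_cases h10 : q = p
      · rw [h10]; exact h9
      · rw [h8 h10, H.ml_neg]; exact h9

omit [CharZero K] in
/-- At most two eigenvalues. -/
lemma card_le {a : K}
    (ha : ∀ v, N v = 0 → ∃ w, h (h v) - (a * a) • v = N w) :
    {q | ml N h q ≠ 0}.ncard ≤ 2 := by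
  have key : {q | ml N h q ≠ 0} ⊆ {a, -a} := by
    intro b hb
    by_contra hne
    apply hb
    have hba : b * b ≠ a * a := by
      intro h1
      apply hne
      have h2 : (b - a) * (b + a) = 0 := by linear_combination h1
      rcases mul_eq_zero.mp h2 with h3 | h3
      · exact Or.inl (sub_eq_zero.mp h3)
      · exact Or.inr (eq_neg_of_add_eq_zero_left h3)
    have : LinearMap.ker N ⊓ h.eigenspace b ≤ LinearMap.range N ⊓ h.eigenspace b := by
      rintro v ⟨hv1, hv2⟩
      refine ⟨?_, hv2⟩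
      obtain ⟨w, hw⟩ := ha v hv1
      have hv3 := Module.End.mem_eigenspace_iff.mp hv2
      rw [hv3, map_smul, hv3, smul_smul, ← sub_smul] at hw
      refine ⟨(b * b - a * a)⁻¹ • w, ?_⟩
      rw [map_smul, ← hw, smul_smul, inv_mul_cancel₀ (sub_ne_zero.mpr hba), one_smul]
    have := Submodule.finrank_mono this
    unfold ml
    omega
  calc {q | ml N h q ≠ 0}.ncard ≤ ({a, -a} : Set K).ncard :=
        Set.ncard_le_ncard key (Set.toFinite _)
    _ ≤ ({-a} : Set K).ncard + 1 := Set.ncard_insert_le _ _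
    _ = 2 := by rw [Set.ncard_singleton]

end

section lie

variable {K : Type*} [Field K] [CharZero K] [IsAlgClosed K] {V : Type*} [AddCommGroup V]
  [Module K V] [FiniteDimensional K V] {ω : LinearMap.BilinForm K V}

/-- OE: the simple case, with the number of eigenvalues. -/
theorem simple_eig {L : LieSubalgebra K (Module.End K V)} {S : Set (Module.End K V)}
    (hC : Ctx ω L.toSubmodule S) (hsy : ∀ v w, ω v w = ω w v) (hsimple : LieAlgebra.IsSimple K L)
    {N h : Module.End K V} (hN : N ∈ L)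
    (hNN : N * N = 0) (hN0 : N ≠ 0) (hh : h ∈ L)
    (hdiag : ⨆ q : ℚ, h.eigenspace (q : K) = ⊤) {σ : K} (hσ : h * N = σ • N) :
    (∀ z, IsSk ω z → z ∈ L) ∨ EigExc (rk N) {q | ml N h q ≠ 0}.ncard (finrank K V) := by
  have H : BC ω N h σ := ⟨hC.nd, hC.irr.sk N hN, hC.irr.sk h hh, hNN, hN0, hdiag, hσ⟩
  rcases simple_plus hC hsy hsimple hN hNN hN0 hh hdiag hσ with h1 | ⟨a, ha⟩
  · exact Or.inl h1
  have hle := card_le ha
  have hfin : {q | ml N h q ≠ 0}.Finite := by
    by_contra hinf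
    obtain ⟨Λ, hΛ⟩ := exists_finset h
    apply hinf
    apply Λ.finite_toSet.subset
    intro q hq
    rw [Finset.mem_coe, ← hΛ]
    intro h0
    apply hq
    unfold ml
    rw [h0, inf_bot_eq, finrank_bot]
    simp
  have h0iff : {q | ml N h q ≠ 0}.ncard = 0 ↔ 2 * rk N = finrank K V := by
    rw [Set.ncard_eq_zero hfin]
    exact eq_half_iff H
  obtain ⟨s, hs, hss⟩ := exists_inv hC hN hN0
  rcases orth_class hC.irr hC.nd hsy hsimple hs hss hN hNN hN0 with h1 | ⟨m, h1, h2, h3, h4⟩ |
    ⟨n, h1, h2, h3, h4⟩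
  · exact Or.inl h1
  · right; left
    refine ⟨m, h1, h2, h3, h4, ?_⟩
    have h5 : 2 * rk N < finrank K V := by rw [h3, h4]; exact choose_strict (by omega)
    omega
  · right; right
    refine ⟨n, h1, h2, h3, ?_⟩
    have e : 2 ^ n = 2 * (2 * 2 ^ (n - 2)) := by
      rw [← pow_succ', ← pow_succ']
      congr 1
      omega
    have e' : 2 ^ n = 2 * 2 ^ (n - 1) := by
      rw [← pow_succ']
      congr 1
      omega
    have hpos : 0 < 2 ^ (n - 2) := by positivity
    rcases h4 with h4 | h4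
    · left
      refine ⟨h4, ?_⟩
      have h5 : 2 * rk N < finrank K V := by
        rw [h3, h4, e]
        omega
      omega
    · right
      refine ⟨h4, ?_⟩
      rw [h0iff, h3, h4, e']

end lie

section grp

variable {K : Type*} [Field K] [IsAlgClosed K] [CharZero K] {m : Type*} [Fintype m]
  [DecidableEq m]

/-- OG, first part: the Lie algebra contains all skew operators. -/
theorem lie_eig {Γ : Subgroup (Equiv.Perm (m → K))} {J : Matrix m m K}
    {G : Subgroup (Matrix.GeneralLinearGroup m K)} {π : Matrix m m K}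
    (D : IsOrthPair Γ J G π) {r k : ℕ} (hd : DenseQuad Γ G ⊤ r)
    (hb : ∃ u ∈ G, ∃ g ∈ G, IsBadEig u g ⊤ r k) (hexc : ¬ EigExc r k (Fintype.card m))
    (hm : Nonempty m) {z : Module.End K (m → K)} (hz : IsSk (fJ J) z) :
    z ∈ MTP.SL (fJ J) (GE G) (TE Γ) (Matrix.toLin' π) := by
  have S := ostr D hm
  obtain ⟨u, hu, g, hg, hr0, hqr, hroot, ⟨a0, ha0⟩, hk⟩ := hb
  have hsmp := S.ctx.irr.smp_of_dense S.nd (fun τ hτ => S.isTw hτ) S.tsmp S.tmul S.tone
    S.tinv (by
      intro τ hτ E
      obtain ⟨τ', hτ', h1, u', hu', h2, h3, -, h5⟩ := dense_E D hr0 hd τ hτ E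
      refine ⟨τ', hτ', h1, u' - 1, S.quad_mem hu' h2, h2, h3, ?_⟩
      rw [map_sub, h5, map_one])
  set x : Module.End K (m → K) := Matrix.toLin' (u : Matrix m m K) with hx
  set y : Module.End K (m → K) := Matrix.toLin' (g : Matrix m m K) with hy
  have hx1 : x - 1 = ((u : Matrix m m K) - 1).mulVecLin := by
    apply LinearMap.ext
    intro v
    rw [LinearMap.sub_apply, hx, Matrix.toLin'_apply, Matrix.mulVecLin_apply, Matrix.sub_mulVec,
      Matrix.one_mulVec, Module.End.one_apply]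
  have hNN : (x - 1) * (x - 1) = 0 := by
    apply LinearMap.ext
    intro v
    rw [hx1]
    exact hqr.1 v trivial
  have hrk : MTP.rk (x - 1) = r := by
    rw [hx1, ← hqr.2, Submodule.map_top]
    rfl
  have h0 : x - 1 ≠ 0 := by
    intro h0
    rw [h0] at hrk
    have : MTP.rk (0 : Module.End K (m → K)) = 0 := rk_eq_zero.mpr rfl
    omega
  have hxG : x ∈ GE G := toLin_mem hu
  have hyG : y ∈ GE G := toLin_mem hg
  have hxL := S.quad_mem hxG hNN
  obtain ⟨w, hw, hxw⟩ := S.ctx.irr.exists_not_comm hxL hNN h0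
  have hsimp := toLie_simple S.ctx.irr.br hsmp hxL hw hxw
  obtain ⟨y', hy', hyy', hy'y⟩ := S.inv y hyG
  obtain ⟨c, hc⟩ := S.sim y hyG
  have hroot' : ∀ a b : K, y.eigenspace a ≠ ⊥ → y.eigenspace b ≠ ⊥ → ∀ n : ℕ, 0 < n →
      a ^ n = b ^ n → a = b := by
    intro a b' ha hb n hn hab
    obtain ⟨v, hv, hv0⟩ := Submodule.exists_mem_ne_zero_of_ne_bot ha
    obtain ⟨w', hw', hw0'⟩ := Submodule.exists_mem_ne_zero_of_ne_bot hb
    have key : ∀ (q : K) (v : m → K), v ∈ y.eigenspace q →
        (g : Matrix m m K).mulVec v = q • v := by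
      intro q v hv
      rw [← Matrix.toLin'_apply]
      exact Module.End.mem_eigenspace_iff.mp hv
    exact hroot a b' v trivial w' trivial hv0 hw0' (key a v hv) (key b' w' hw') n hn hab
  have hy1 : (g : Matrix m m K).mulVecLin = y := rfl
  have hrange : LinearMap.range (x - 1) ≤ y.maxGenEigenspace a0 := by
    rintro _ ⟨v, rfl⟩
    have h3 := ha0 v trivial
    rw [hx1]
    exact h3
  have hconj : ∀ z ∈ MTP.SL (fJ J) (GE G) (TE Γ) (Matrix.toLin' π),
      y * z * y' ∈ MTP.SL (fJ J) (GE G) (TE Γ) (Matrix.toLin' π) :=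
    fun z hz => S.lie_conj hyG hy' hyy' hy'y hz
  obtain ⟨s, hssk, hsnorm, hsdiag, ⟨τ, hτ⟩, -, f, hf⟩ :=
    exists_log_bij S.nd hy'y hc hroot' hconj h0 hrange
  have hsL := S.ctx.irr.mem_of_normalize S.ctx.nd hssk hsnorm
  have hcard : {q | ml (x - 1) s q ≠ 0}.ncard = k := by
    rw [← hk, ← hf.image_eq, hf.injOn.ncard_image]
    congr 1
    ext a
    have e : mlt (u : Matrix m m K) g ⊤ a = mg (x - 1) y a := by
      unfold mlt mg
      rw [hx1, hy1, top_inf_eq, Submodule.map_top]
    rw [Set.mem_ofPred_eq, Set.mem_ofPred_eq, e]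
  have hsym : ∀ v w, fJ J v w = fJ J w v := by
    intro v w
    rw [fJ_apply, fJ_apply, Matrix.dotProduct_mulVec, ← Matrix.mulVec_transpose, D.symm,
      dotProduct_comm]
  rcases simple_eig (L := toLie _ S.ctx.irr.br) S.ctx hsym hsimp hxL hNN h0 hsL hsdiag hτ
    with h | h
  · exact h z hz
  · rw [hrk, hcard, Module.finrank_fintype_fun_eq_card] at h
    exact absurd h hexc

end grp

end OR
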