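import Pool.Agent.Helper88.OR.Group
import Pool.Agent.Helper37.OR.FW
import Pool.Agent.Helper36.OR.FS

/-!
MP_b8862a_ag, orthogonal (type III) theorem, block OF: the exact criterion.
-/

open Module MTPairs

namespace OR

open MTP

lemma dense_bot {K : Type*} [Field K] {m : Type*} [Fintype m] [DecidableEq m]
    {G : Subgroup (Matrix.GeneralLinearGroup m K)} {U : Submodule K (m → K)} {r : ℕ}
    (h : ∃ u ∈ G, IsQuadraticOn u U r) : DenseQuad ⊥ G U r := by
  intro γ hγ E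
  obtain ⟨u, hu, hq⟩ := h
  refine ⟨γ, hγ, fun v _ => rfl, u, hu, ?_, hq⟩
  rw [Subgroup.mem_bot] at hγ
  subst hγ
  intro v
  rfl

/-- Every exceptional triple is realised. -/
theorem hasOrth_of_exc (K : Type*) [Field K] [CharZero K] {r k D : ℕ} (h : EigExc r k D) :
    HasOrth K r k D := by
  rcases h with ⟨n, hn, hn4, rfl, rfl, hk⟩ | ⟨n, hn, hn3, rfl, ⟨rfl, hk⟩ | ⟨rfl, rfl⟩⟩
  · rcases hk with rfl | rfl
    · exact (hasOrth_wedge K hn hn4).1
    · exact (hasOrth_wedge K hn hn4).2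
  · rcases hk with rfl | rfl
    · exact (hasOrth_spin K hn hn3).1
    · exact (hasOrth_spin K hn hn3).2.1
  · exact (hasOrth_spin K hn hn3).2.2

/-- **The exact criterion.** -/
theorem orth_eig {K : Type*} [Field K] [IsAlgClosed K] [CharZero K] (R : Set (ℕ × ℕ × ℕ)) :
    (∀ (m : Type) [Fintype m] [DecidableEq m]
      (Γ : Subgroup (Equiv.Perm (m → K))) (J : Matrix m m K)
      (G : Subgroup (Matrix.GeneralLinearGroup m K)) (π : Matrix m m K),
      IsOrthPair Γ J G π →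
      (∃ r k : ℕ, DenseQuad Γ G ⊤ r ∧ (∃ u ∈ G, ∃ g ∈ G, IsBadEig u g ⊤ r k) ∧
        (r, k, Fintype.card m) ∈ R) → ContainsSO J G) ↔
    ∀ r k D : ℕ, (r, k, D) ∈ R → ¬ EigExc r k D := by
  constructor
  · rintro h r k D hr hexc
    obtain ⟨m, i1, i2, J, G, π, hm, g1, ⟨u, hu, g, hg, hb⟩, g4⟩ := hasOrth_of_exc K hexc
    apply g4
    apply h m ⊥ J G π g1
    refine ⟨r, k, OR.dense_bot ⟨u, hu, hb.2.1⟩, ⟨u, hu, g, hg, hb⟩, ?_⟩
    rw [hm]
    exact hr
  · rintro hR m _ _ Γ J G π D ⟨r, k, hd, hb, hr⟩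
    exact so_of_eig D hd hb (hR r k _ hr)

end OR
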