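import Pool.Agent.Helper88.OR.OC

/-!
Auxiliary results for block OP (`simple_plus`): extremal root vectors belong to long roots, the
kernel of a root vector, recognition of root vectors. These are copies of the files QAux and
SimplePlus of helper48, which do not use that the form is alternating.
-/

open Module LieModule LieAlgebra LieAlgebra.IsKilling

attribute [local instance 100] LieRing.ofAssociativeRing

namespace OR

open TR

section abs
open MTP MTP.MF Pool.Agent.Helper54.MT
variable {K : Type*} [Field K] [CharZero K] [IsAlgClosed K]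
  {L : Type*} [LieRing L] [LieAlgebra K L] [FiniteDimensional K L] [IsKilling K L]
  {H : LieSubalgebra K L} [H.IsCartanSubalgebra]
  {V : Type*} [AddCommGroup V] [Module K V] [FiniteDimensional K V]
  [LieRingModule L V] [LieModule K L V] {I : Type*} [Fintype I] (B : WB (V := V) H I)

namespace Q7

/-- The weights take the values `-1, 0, 1` on a coroot. -/
lemma val (hsq : ∀ (α : H.root) (x : L), x ∈ rootSpace H α.1 →
      toEnd K L V x * toEnd K L V x = 0) (θ : H.root) (i : I) :
    B.w i (coroot θ.1) = -1 ∨ B.w i (coroot θ.1) = 0 ∨ B.w i (coroot θ.1) = 1 :=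
  small B hsq i θ

include B

/-- A root with value `-2` on the coroot of an extremal root vector is opposite to it. -/
lemma opp_of_ext (hfaith : ∀ x : L, (∀ u : V, ⁅x, u⁆ = 0) → x = 0)
    (hsq : ∀ (α : H.root) (x : L), x ∈ rootSpace H α.1 →
      toEnd K L V x * toEnd K L V x = 0) {θ : H.root} {e : L} (he : e ∈ rootSpace H θ.1)
    (he0 : e ≠ 0) (hext : ∀ y : L, ∃ c : K, ⁅e, ⁅e, y⁆⁆ = c • e) (β : H.root)
    (hβ : β.1 (coroot θ.1) = -2) (t : H) : β.1 t = - θ.1 t := by
  classical
  obtain ⟨x, hx, hx0⟩ := β.1.exists_ne_zero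
  obtain ⟨e0, f0, ht, he', hf'⟩ := exists_triple θ
  obtain ⟨c', hc'⟩ := mem_line he he0 he'
  have hcx : ⁅((coroot θ.1 : H) : L), x⁆ = (-2 : K) • x := by
    rw [lie_root hx, hβ]
  have hhe : ⁅((coroot θ.1 : H) : L), e0⁆ = (2 : K) • e0 := by
    rw [lie_root he', root_apply_coroot (H.isNonZero_coe_root θ)]
  have hhf : ⁅((coroot θ.1 : H) : L), f0⁆ = -((2 : K) • f0) := by
    rw [ht.lie_h_f_nsmul, ofNat_smul_eq_nsmul K]
  have hfe : ⁅f0, e0⁆ = - ((coroot θ.1 : H) : L) := by rw [← ht.lie_e_f, lie_skew]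
  -- `[f, x] = 0`
  have hy : ⁅f0, x⁆ = 0 := by
    apply hfaith
    have h1 : ⁅((coroot θ.1 : H) : L), ⁅f0, x⁆⁆ = (-4 : K) • ⁅f0, x⁆ := by
      rw [leibniz_lie, hhf, hcx, neg_lie, smul_lie, lie_smul]
      module
    have h2 : ∀ i, ⁅⁅f0, x⁆, B.v i⁆ = 0 := by
      intro i
      apply B.v.repr.injective
      rw [map_zero]
      ext j
      by_contra hj
      have h3 : ⁅((coroot θ.1 : H) : L), ⁅⁅f0, x⁆, B.v i⁆⁆
          = (-4 + B.w i (coroot θ.1)) • ⁅⁅f0, x⁆, B.v i⁆ := by
        rw [leibniz_lie, h1, B.lie_v, smul_lie, lie_smul, ← add_smul]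
      have h4 := B.coord h3 hj
      rcases val B hsq θ i with h5 | h5 | h5 <;> rcases val B hsq θ j with h6 | h6 | h6 <;>
        rw [h5, h6] at h4 <;> norm_num at h4
    intro u
    rw [← B.v.sum_repr u, lie_sum]
    exact Finset.sum_eq_zero fun i _ => by rw [lie_smul, h2, smul_zero]
  have hz : ⁅f0, ⁅e0, x⁆⁆ = (2 : K) • x := by
    rw [leibniz_lie, hfe, hy, lie_zero, add_zero, neg_lie, hcx]
    module
  have hhz : ⁅((coroot θ.1 : H) : L), ⁅e0, x⁆⁆ = 0 := by
    rw [leibniz_lie, hhe, hcx, smul_lie, lie_smul]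
    module
  have hzz : ⁅f0, ⁅e0, ⁅e0, x⁆⁆⁆ = (2 : K) • ⁅e0, x⁆ := by
    rw [leibniz_lie f0 e0, hfe, hz, neg_lie, hhz, lie_smul]
    module
  have hne : ⁅e0, ⁅e0, x⁆⁆ ≠ 0 := by
    intro h0
    rw [h0, lie_zero] at hzz
    have h1 := (smul_eq_zero.mp hzz.symm).resolve_left two_ne_zero
    rw [h1, lie_zero] at hz
    exact hx0 ((smul_eq_zero.mp hz.symm).resolve_left two_ne_zero)
  obtain ⟨d, hd⟩ := hext x
  have hd' : ⁅e0, ⁅e0, x⁆⁆ = (c' * c' * d) • e := by
    rw [hc', smul_lie, smul_lie, lie_smul, hd, smul_smul, smul_smul]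
  have h1 : ⁅(t : L), ⁅e0, ⁅e0, x⁆⁆⁆ = (θ.1 t + (θ.1 t + β.1 t)) • ⁅e0, ⁅e0, x⁆⁆ := by
    have h2 : ⁅(t : L), ⁅e0, x⁆⁆ = (θ.1 t + β.1 t) • ⁅e0, x⁆ := by
      rw [leibniz_lie, lie_root he', lie_root hx, smul_lie, lie_smul, add_smul]
    rw [leibniz_lie, h2, lie_root he', smul_lie, lie_smul, add_smul (θ.1 t) (θ.1 t + β.1 t)]
  have h2 : ⁅(t : L), ⁅e0, ⁅e0, x⁆⁆⁆ = θ.1 t • ⁅e0, ⁅e0, x⁆⁆ := by
    rw [hd', lie_smul, lie_root he, smul_comm]
  rw [h2] at h1
  have h3 := smul_left_injective K hne h1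
  linear_combination -h3

/-- Extremal root vectors belong to long roots. -/
theorem long_of_ext (hfaith : ∀ x : L, (∀ u : V, ⁅x, u⁆ = 0) → x = 0)
    (hsq : ∀ (α : H.root) (x : L), x ∈ rootSpace H α.1 →
      toEnd K L V x * toEnd K L V x = 0) {θ : H.root} {e : L} (he : e ∈ rootSpace H θ.1)
    (he0 : e ≠ 0) (hext : ∀ y : L, ∃ c : K, ⁅e, ⁅e, y⁆⁆ = c • e) :
    Long (rootSystem H) θ := by
  intro i hi hneg
  have h1 : i.1 (coroot θ.1) = (((rootSystem H).pairingIn ℤ i θ : ℤ) : K) :=
    pair_cast (P := rootSystem H) i θ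
  obtain ⟨a, b, hab⟩ := B.root_apply hfaith i
  have h2 := hab (coroot θ.1)
  have hm2 : (rootSystem H).pairingIn ℤ i θ ≠ -2 := by
    intro h3
    apply hneg
    rw [h3] at h1
    ext t
    exact opp_of_ext B hfaith hsq he he0 hext i (by rw [h1]; norm_num) t
  have hp2 : (rootSystem H).pairingIn ℤ i θ ≠ 2 := by
    intro h3
    apply hi
    rw [h3] at h1
    have h4 : ∀ t, (nroot i).1 t = - θ.1 t := fun t =>
      opp_of_ext B hfaith hsq he he0 hext (nroot i) (by
        change -(i.1 (coroot θ.1)) = -2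
        rw [h1]; norm_num) t
    apply Subtype.ext
    apply Weight.ext
    intro t
    have h5 : -(i.1 t) = -(θ.1 t) := h4 t
    exact neg_injective h5
  set p := (rootSystem H).pairingIn ℤ i θ with hp
  have key : ∀ z : ℤ, i.1 (coroot θ.1) = (z : K) → p = z := by
    intro z hz
    rw [h1] at hz
    exact_mod_cast hz
  rcases val B hsq θ a with h3 | h3 | h3 <;> rcases val B hsq θ b with h4 | h4 | h4 <;>
    rw [h3, h4] at h2
  · right; left; exact key 0 (by push_cast; linear_combination -h2)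
  · right; right; exact key 1 (by push_cast; linear_combination -h2)
  · exact absurd (key 2 (by push_cast; linear_combination -h2)) hp2
  · left; exact key (-1) (by push_cast; linear_combination -h2)
  · right; left; exact key 0 (by push_cast; linear_combination -h2)
  · right; right; exact key 1 (by push_cast; linear_combination -h2)
  · exact absurd (key (-2) (by push_cast; linear_combination -h2)) hm2
  · left; exact key (-1) (by push_cast; linear_combination -h2)
  · right; left; exact key 0 (by push_cast; linear_combination -h2)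

omit [CharZero K] [IsAlgClosed K] [FiniteDimensional K L] [IsKilling K L]
  [H.IsCartanSubalgebra] [FiniteDimensional K V] in
/-- A vector all of whose coordinates have the same value on `h` is an eigenvector. -/
lemma eig {u : V} {h : H} {c : K} (hu : ∀ i, B.v.repr u i ≠ 0 → B.w i h = c) :
    ⁅(h : L), u⁆ = c • u := by
  conv_lhs => rw [← B.v.sum_repr u]
  conv_rhs => rw [← B.v.sum_repr u]
  rw [lie_sum, Finset.smul_sum]
  refine Finset.sum_congr rfl fun i _ => ?_
  by_cases hi : B.v.repr u i = 0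
  · rw [hi, zero_smul, lie_zero, smul_zero]
  · rw [lie_smul, B.lie_v, hu i hi, smul_comm]

/-- The square of `h` on the kernel of a root vector. -/
theorem ker_sq (hsq : ∀ (α : H.root) (x : L), x ∈ rootSpace H α.1 →
      toEnd K L V x * toEnd K L V x = 0) {θ : H.root} {e : L} (he : e ∈ rootSpace H θ.1)
    (he0 : e ≠ 0) {h : H} {σ a : K} (h1 : ∀ i, B.w i (coroot θ.1) = 1 → B.w i h = σ)
    (h0 : ∀ i, B.w i (coroot θ.1) = 0 → B.w i h * B.w i h = a * a) {v : V}
    (hv : ⁅e, v⁆ = 0) : ∃ w : V, ⁅(h : L), ⁅(h : L), v⁆⁆ - (a * a) • v = ⁅e, w⁆ := by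
  obtain ⟨e0, f0, he', he0', hT, hEE, hFF, hEF, hFE⟩ := triple_rel (V := V) hsq θ
  obtain ⟨c', hc'⟩ := mem_line he he0 he'
  set E := toEnd K L V e0 with hE
  set F := toEnd K L V f0 with hF
  have hEv : E v = 0 := by
    change ⁅e0, v⁆ = 0
    rw [hc', smul_lie, hv, smul_zero]
  have hTx : ∀ u : V, ⁅((coroot θ.1 : H) : L), u⁆ = E (F u) - F (E u) := fun u =>
    LinearMap.congr_fun hT u
  have hE1 : ∀ u, E (E u) = 0 := fun u => LinearMap.congr_fun hEE u
  have hE3 : ∀ u, E (F (E u)) = E u := fun u => LinearMap.congr_fun hEF u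
  -- the component in the zero eigenspace
  set v0 := v - E (F v) with hv0
  have hTv0 : ⁅((coroot θ.1 : H) : L), v0⁆ = (0 : K) • v0 := by
    rw [zero_smul, hTx, hv0, map_sub, map_sub, map_sub, map_sub, hEv, hE3, hE1, map_zero]
    simp
  have hTE : ∀ u, ⁅((coroot θ.1 : H) : L), E u⁆ = (1 : K) • E u := by
    intro u
    rw [hTx, hE3, hE1, map_zero, sub_zero, one_smul]
  have hhE : ∀ u, ⁅(h : L), E u⁆ = σ • E u := fun u =>
    eig B fun i hi => h1 i (B.coord (hTE u) hi)
  have hhv0 : ⁅(h : L), ⁅(h : L), v0⁆⁆ = (a * a) • v0 := by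
    have key : ∀ i, B.v.repr v0 i ≠ 0 → B.w i h * B.w i h = a * a := fun i hi =>
      h0 i (B.coord hTv0 hi)
    conv_lhs => rw [← B.v.sum_repr v0]
    conv_rhs => rw [← B.v.sum_repr v0]
    rw [lie_sum, lie_sum, Finset.smul_sum]
    refine Finset.sum_congr rfl fun i _ => ?_
    by_cases hi : B.v.repr v0 i = 0
    · rw [hi, zero_smul, lie_zero, lie_zero, smul_zero]
    · rw [lie_smul, lie_smul, B.lie_v, lie_smul, B.lie_v, smul_smul (B.w i h), key i hi,
        smul_comm]
  refine ⟨(σ * σ - a * a) • (c' • F v), ?_⟩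
  have h2 : v = v0 + E (F v) := by rw [hv0]; abel
  have h3 : ⁅(h : L), ⁅(h : L), v⁆⁆ = (a * a) • v0 + (σ * σ) • E (F v) := by
    conv_lhs => rw [h2]
    rw [lie_add, lie_add, hhv0, hhE, lie_smul, hhE, smul_smul]
  have h4 : ⁅e, (σ * σ - a * a) • (c' • F v)⁆ = (σ * σ - a * a) • E (F v) := by
    rw [lie_smul, lie_smul, ← smul_lie, ← hc']
    rfl
  have h5 : (a * a) • v = (a * a) • v0 + (a * a) • E (F v) := by rw [← smul_add, ← h2]
  rw [h3, h4, h5]
  module

end Q7

end abs

section root

open MTP MTP.MF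

variable {K : Type*} [Field K] [CharZero K] [IsAlgClosed K] {V : Type*} [AddCommGroup V]
  [Module K V] [FiniteDimensional K V] {ω : LinearMap.BilinForm K V}

namespace Q7

omit [IsAlgClosed K] [FiniteDimensional K V] in
/-- The eigenvectors of `ad h` of value two. -/
lemma eq_sandwich {N f Y : Module.End K V} (hNN : N * N = 0) (hff : f * f = 0)
    (hNf : N * f * N = N) (hfN : f * N * f = f)
    (hY : (N * f - f * N) * Y - Y * (N * f - f * N) = (2 : K) • Y) : Y = N * (f * Y * f) * N := by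
  have hEE : (N * f) * (N * f) = N * f := by rw [← mul_assoc, hNf]
  have hFF : (f * N) * (f * N) = f * N := by rw [← mul_assoc, hfN]
  have hEF : (N * f) * (f * N) = 0 := by
    have : (N * f) * (f * N) = N * (f * f) * N := by noncomm_ring
    rw [this, hff]; simp
  have hFE : (f * N) * (N * f) = 0 := by
    have : (f * N) * (N * f) = f * (N * N) * f := by noncomm_ring
    rw [this, hNN]; simp
  have e0 : N * (f * Y * f) * N = (N * f) * Y * (f * N) := by noncomm_ring
  rw [e0]
  generalize N * f = E at *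
  generalize f * N = F at *
  have hY' : E * Y - F * Y - Y * E + Y * F = (2 : K) • Y := by rw [← hY]; noncomm_ring
  have h1 : F * Y * E = 0 := by
    have h2 : F * (E * Y - F * Y - Y * E + Y * F) * E = (2 : K) • (F * Y * E) := by
      rw [hY', mul_smul_comm, smul_mul_assoc]
    have h3 : F * (E * Y - F * Y - Y * E + Y * F) * E =
        (F * E) * Y * E - (F * F) * Y * E - F * Y * (E * E) + F * Y * (F * E) := by noncomm_ring
    rw [h3, hFE, hFF, hEE] at h2
    have h4 : (4 : K) • (F * Y * E) = 0 := by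
      have h5 : (2 : K) • (F * Y * E) = -(F * Y * E) - F * Y * E := by
        rw [← h2]; simp
      have h6 : (4 : K) • (F * Y * E) = (2 : K) • (F * Y * E) + (2 : K) • (F * Y * E) := by module
      rw [h6]
      nth_rewrite 1 [h5]
      module
    exact (smul_eq_zero.mp h4).resolve_left (by norm_num)
  have h2 : F * Y * F = 0 := by
    have h3 : F * (E * Y - F * Y - Y * E + Y * F) * F = (2 : K) • (F * Y * F) := by
      rw [hY', mul_smul_comm, smul_mul_assoc]
    have h4 : F * (E * Y - F * Y - Y * E + Y * F) * F =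
        (F * E) * Y * F - (F * F) * Y * F - F * Y * (E * F) + F * Y * (F * F) := by noncomm_ring
    rw [h4, hFE, hFF, hEF] at h3
    have h5 : (2 : K) • (F * Y * F) = 0 := by rw [← h3]; simp
    exact (smul_eq_zero.mp h5).resolve_left two_ne_zero
  have h3 : F * Y = 0 := by
    have h4 : F * (E * Y - F * Y - Y * E + Y * F) = (2 : K) • (F * Y) := by
      rw [hY', mul_smul_comm]
    have h5 : F * (E * Y - F * Y - Y * E + Y * F) =
        (F * E) * Y - (F * F) * Y - F * Y * E + F * Y * F := by noncomm_ring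
    rw [h5, hFE, hFF, h1, h2] at h4
    have h6 : (3 : K) • (F * Y) = 0 := by
      have h7 : (3 : K) • (F * Y) = (2 : K) • (F * Y) + F * Y := by module
      rw [h7, ← h4]; simp
    exact (smul_eq_zero.mp h6).resolve_left three_ne_zero
  have h4 : E * Y * E = 0 := by
    have h5 : E * (E * Y - F * Y - Y * E + Y * F) * E = (2 : K) • (E * Y * E) := by
      rw [hY', mul_smul_comm, smul_mul_assoc]
    have h6 : E * (E * Y - F * Y - Y * E + Y * F) * E =
        (E * E) * Y * E - (E * F) * Y * E - E * Y * (E * E) + E * Y * (F * E) := by noncomm_ring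
    rw [h6, hFE, hEF, hEE] at h5
    have h7 : (2 : K) • (E * Y * E) = 0 := by rw [← h5]; simp
    exact (smul_eq_zero.mp h7).resolve_left two_ne_zero
  have h5 : Y * E = 0 := by
    have h6 : (E * Y - F * Y - Y * E + Y * F) * E = (2 : K) • (Y * E) := by
      rw [hY', smul_mul_assoc]
    have h7 : (E * Y - F * Y - Y * E + Y * F) * E =
        E * Y * E - F * Y * E - Y * (E * E) + Y * (F * E) := by noncomm_ring
    rw [h7, hFE, hEE, h4, h1] at h6
    have h8 : (3 : K) • (Y * E) = 0 := by
      have h9 : (3 : K) • (Y * E) = (2 : K) • (Y * E) + Y * E := by module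
      rw [h9, ← h6]; simp
    exact (smul_eq_zero.mp h8).resolve_left three_ne_zero
  rw [h3, h5, sub_zero, sub_zero] at hY'
  have h6 : E * Y + E * Y * F = (2 : K) • (E * Y) := by
    rw [← mul_smul_comm, ← hY', mul_add, ← mul_assoc E E, hEE, ← mul_assoc E Y]
  have h7 : E * Y * F + Y * F = (2 : K) • (Y * F) := by
    rw [← smul_mul_assoc, ← hY', add_mul, mul_assoc Y F, hFF]
  have h8 : E * Y * F = E * Y := by
    rw [two_smul] at h6
    exact add_left_cancel h6
  have h9 : E * Y * F = Y * F := by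
    rw [two_smul] at h7
    exact add_right_cancel h7
  have h10 : (2 : K) • Y = (2 : K) • (E * Y * F) := by
    calc (2 : K) • Y = E * Y + Y * F := hY'.symm
      _ = E * Y * F + E * Y * F := congrArg₂ (· + ·) h8.symm h9.symm
      _ = (2 : K) • (E * Y * F) := (two_smul K _).symm
  exact smul_right_injective _ two_ne_zero h10

omit [IsAlgClosed K] in
/-- An extremal element with its neutral element in a Cartan subalgebra is a root vector. -/
theorem exists_root {L : LieSubalgebra K (Module.End K V)} [IsKilling K L]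
    {H : LieSubalgebra K L} [H.IsCartanSubalgebra] {N f : Module.End K V} (hN : N ∈ L)
    (hf : f ∈ L) (hNN : N * N = 0) (hN0 : N ≠ 0)
    (hext : ∀ y ∈ L, ∃ c : K, N * y * N = c • N) (hff : f * f = 0) (hNf : N * f * N = N)
    (hfN : f * N * f = f) {h1 : L} (hh1 : (h1 : Module.End K V) = N * f - f * N)
    (hH : h1 ∈ H) : ∃ θ : H.root, (⟨N, hN⟩ : L) ∈ rootSpace H θ.1 := by
  have hsand : ∀ y ∈ L, f * y * f ∈ L := by
    intro y hy
    have h2 : ⁅f, ⁅f, y⁆⁆ ∈ L := L.lie_mem hf (L.lie_mem hf hy)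
    have h3 : ⁅f, ⁅f, y⁆⁆ = (-2 : K) • (f * y * f) := by
      rw [LieRing.of_associative_ring_bracket, LieRing.of_associative_ring_bracket]
      have : f * (f * y - y * f) - (f * y - y * f) * f
          = (f * f) * y - (f * y * f + f * y * f) + y * (f * f) := by noncomm_ring
      rw [this, hff]
      simp only [zero_mul, mul_zero, add_zero, zero_sub]
      module
    rw [h3] at h2
    have h4 := L.smul_mem (-2 : K)⁻¹ h2
    rwa [smul_smul, inv_mul_cancel₀ (by norm_num), one_smul] at h4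
  have hab : ∀ t : H, ⁅(t : L), h1⁆ = 0 := by
    intro t
    have h2 : ⁅t, (⟨h1, hH⟩ : H)⁆ = 0 := trivial_lie_zero H H t ⟨h1, hH⟩
    exact congrArg Subtype.val h2
  have h1N : (h1 : Module.End K V) * N - N * h1 = (2 : K) • N := by
    rw [hh1]
    have : (N * f - f * N) * N - N * (N * f - f * N)
        = N * f * N + N * f * N - f * (N * N) - (N * N) * f := by noncomm_ring
    rw [this, hNf, hNN, two_smul]
    simp
  have key : ∀ t : H, ∃ c : K, ⁅(t : L), (⟨N, hN⟩ : L)⁆ = c • (⟨N, hN⟩ : L) := by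
    intro t
    set Y : L := ⁅(t : L), (⟨N, hN⟩ : L)⁆ with hYd
    have hYe : (Y : Module.End K V) = ((t : L) : Module.End K V) * N - N * ((t : L) : Module.End K V) := by
      rw [hYd, LieSubalgebra.coe_bracket, LieRing.of_associative_ring_bracket]
    have hcomm : ((t : L) : Module.End K V) * h1 = h1 * ((t : L) : Module.End K V) := by
      have h2 := congrArg Subtype.val (hab t)
      rw [LieSubalgebra.coe_bracket, LieRing.of_associative_ring_bracket] at h2
      exact sub_eq_zero.mp h2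
    have hY : (N * f - f * N) * (Y : Module.End K V) - Y * (N * f - f * N) = (2 : K) • (Y : Module.End K V) := by
      rw [← hh1, hYe]
      set T := ((t : L) : Module.End K V)
      have e1 : (h1 : Module.End K V) * (T * N - N * T) - (T * N - N * T) * h1
          = T * (h1 * N - N * h1) - (h1 * N - N * h1) * T + (h1 * T - T * h1) * N
            - N * (h1 * T - T * h1) := by noncomm_ring
      rw [e1, h1N, hcomm, sub_self, zero_mul, mul_zero, add_zero, sub_zero, mul_smul_comm,
        smul_mul_assoc, smul_sub]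
    have h2 := eq_sandwich hNN hff hNf hfN hY
    obtain ⟨c, hc⟩ := hext _ (hsand _ Y.2)
    exact ⟨c, Subtype.ext (by rw [h2, hc]; rfl)⟩
  choose χ hχ using key
  have hmem : (⟨N, hN⟩ : L) ∈ rootSpace H χ := by
    apply weightSpace_le_genWeightSpace L χ
    rw [mem_weightSpace]
    intro t
    exact hχ t
  have hN' : (⟨N, hN⟩ : L) ≠ 0 := fun h => hN0 (congrArg Subtype.val h)
  let α : Weight K H L := ⟨χ, fun h => hN' (by
    have h2 : (⟨N, hN⟩ : L) ∈ (⊥ : LieSubmodule K H L) := by rw [← h]; exact hmem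
    exact (LieSubmodule.mem_bot _).mp h2)⟩
  have hnz : α.IsNonZero := by
    intro h0
    have h2 : χ ⟨h1, hH⟩ = 0 := by
      have : (α : H → K) = 0 := h0
      exact congrFun this _
    have h3 := hχ ⟨h1, hH⟩
    rw [h2, zero_smul] at h3
    have h4 := congrArg Subtype.val h3
    rw [LieSubalgebra.coe_bracket, LieRing.of_associative_ring_bracket] at h4
    rw [h1N] at h4
    exact hN0 ((smul_eq_zero.mp h4).resolve_left two_ne_zero)
  exact ⟨⟨α, by simpa [LieSubalgebra.root] using hnz⟩, hmem⟩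

end Q7

/-- Q4: a square zero element is extremal, or it is the sum of two square zero elements of
smaller rank. -/
theorem ext_or_split {K : Type*} [Field K] [CharZero K] [IsAlgClosed K] {V : Type*}
    [AddCommGroup V] [Module K V] [FiniteDimensional K V] {ω : LinearMap.BilinForm K V}
    {L : Submodule K (Module.End K V)} (hL : IrrSymp ω L)
    (hω : ω.Nondegenerate) {N : Module.End K V} (hN : N ∈ L) (hNN : N * N = 0) (hN0 : N ≠ 0) :
    (∃ u ∈ L, ∃ v ∈ L, u * u = 0 ∧ v * v = 0 ∧ rk u + rk v = rk N ∧ 0 < rk u ∧ 0 < rk v) ∨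
    ∀ y ∈ L, ∃ c : K, N * y * N = c • N := by
  by_cases hsp : ∃ u ∈ L, ∃ v ∈ L, u * u = 0 ∧ v * v = 0 ∧ rk u + rk v = rk N ∧
      0 < rk u ∧ 0 < rk v
  · exact Or.inl hsp
  right
  intro y hy
  exact ⟨_, RD.ext_of_trace hL hω hN hNN hN0
    (fun y hy => (RD.dich hL hN hNN hN0 hy).resolve_left hsp) hy⟩

end root

end OR
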